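import Pool.Agent.Helper64.LN.GoalsB

/-! Packet LN-CR3: crossing elements are hyperbolic and do not commute. -/

set_option autoImplicit false

open Topology Filter Set Metric UpperHalfPlane
open scoped MatrixGroups
open Pool.Agent.Helper64.LN

namespace Pool.Agent.Helper77.LN

/-- Disjoint periodic curves. -/
def Dj (g d : SL(2, ℝ)) : Prop :=
  ∃ η σ : C(ℝ, ℍ), (∀ t, η (t + 1) = g • η t) ∧ (∀ t, σ (t + 1) = d • σ t) ∧ ∀ s t, σ s ≠ η t

theorem Dj.symm {g d : SL(2, ℝ)} (h : Dj g d) : Dj d g := by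
  obtain ⟨η, σ, h1, h2, h3⟩ := h
  exact ⟨σ, η, h2, h1, fun s t e => h3 t s e.symm⟩

theorem Dj.not_Cr {g d : SL(2, ℝ)} (h : Dj g d) : ¬ Cr Sp (mh g) (mh d) := by
  obtain ⟨η, σ, h1, h2, h3⟩ := h
  exact not_Cr_of_disj η σ h1 h2 h3

/-- Move a curve. -/
noncomputable def mv (M : SL(2, ℝ)) (η : C(ℝ, ℍ)) : C(ℝ, ℍ) :=
  ⟨fun t => mh M (η t), (mh M).continuous.comp η.continuous⟩

theorem mv_apply (M : SL(2, ℝ)) (η : C(ℝ, ℍ)) (t : ℝ) : mv M η t = M • η t := rfl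

theorem mv_per (M g : SL(2, ℝ)) (η : C(ℝ, ℍ)) (h : ∀ t, η (t + 1) = (M * g * M⁻¹) • η t) (t : ℝ) :
    mv M⁻¹ η (t + 1) = g • mv M⁻¹ η t := by
  rw [mv_apply, mv_apply, h t, ← mul_smul, ← mul_smul]
  congr 1
  group

theorem Dj_conj (M g d : SL(2, ℝ)) (h : Dj (M * g * M⁻¹) (M * d * M⁻¹)) : Dj g d := by
  obtain ⟨η, σ, h1, h2, h3⟩ := h
  refine ⟨mv M⁻¹ η, mv M⁻¹ σ, mv_per M g η h1, mv_per M d σ h2, ?_⟩
  intro s t e
  rw [mv_apply, mv_apply] at e
  exact h3 s t (MulAction.injective (M⁻¹) e)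

/-! ### Entries -/

theorem conj_entries (M k : SL(2, ℝ)) :
    (M * k * M⁻¹) 0 0 = (M 0 0 * k 0 0 + M 0 1 * k 1 0) * M 1 1 -
      (M 0 0 * k 0 1 + M 0 1 * k 1 1) * M 1 0 ∧
    (M * k * M⁻¹) 0 1 = -((M 0 0 * k 0 0 + M 0 1 * k 1 0) * M 0 1) +
      (M 0 0 * k 0 1 + M 0 1 * k 1 1) * M 0 0 ∧
    (M * k * M⁻¹) 1 0 = (M 1 0 * k 0 0 + M 1 1 * k 1 0) * M 1 1 -
      (M 1 0 * k 0 1 + M 1 1 * k 1 1) * M 1 0 ∧
    (M * k * M⁻¹) 1 1 = -((M 1 0 * k 0 0 + M 1 1 * k 1 0) * M 0 1) +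
      (M 1 0 * k 0 1 + M 1 1 * k 1 1) * M 0 0 := by
  simp only [Matrix.SpecialLinearGroup.coe_mul, Matrix.SpecialLinearGroup.coe_inv,
    Matrix.adjugate_fin_two, Matrix.mul_apply, Fin.sum_univ_two, Matrix.of_apply,
    Matrix.cons_val', Matrix.cons_val_zero, Matrix.cons_val_one, Matrix.cons_val_fin_one]
  refine ⟨?_, ?_, ?_, ?_⟩ <;> ring

theorem det_eq (k : SL(2, ℝ)) : k 0 0 * k 1 1 - k 0 1 * k 1 0 = 1 := by
  have := k.det_coe
  rwa [Matrix.det_fin_two] at this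

theorem conj_tr (M k : SL(2, ℝ)) :
    (M * k * M⁻¹) 0 0 + (M * k * M⁻¹) 1 1 = k 0 0 + k 1 1 := by
  obtain ⟨e1, e2, e3, e4⟩ := conj_entries M k
  rw [e1, e4]
  have := det_eq M
  linear_combination (k 0 0 + k 1 1) * this

/-- Normal form. -/
theorem nf0 (k : SL(2, ℝ)) (v : ℝ × ℝ) (μ : ℝ) (hv : v ≠ 0)
    (h1 : k 0 0 * v.1 + k 0 1 * v.2 = μ * v.1) (h2 : k 1 0 * v.1 + k 1 1 * v.2 = μ * v.2) :
    ∃ M : SL(2, ℝ), (M * k * M⁻¹) 1 0 = 0 ∧ (M * k * M⁻¹) 0 0 = μ := by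
  have hN : 0 < v.1 ^ 2 + v.2 ^ 2 := by
    rcases v with ⟨a, b⟩
    have : a ≠ 0 ∨ b ≠ 0 := by
      by_contra hc
      push Not at hc
      exact hv (Prod.ext hc.1 hc.2)
    rcases this with h | h
    · have := sq_pos_of_ne_zero h
      have h2 := sq_nonneg b
      simp only
      linarith
    · have := sq_pos_of_ne_zero h
      have h2 := sq_nonneg a
      simp only
      linarith
  set N := v.1 ^ 2 + v.2 ^ 2 with hNd
  have hN0 : N ≠ 0 := hN.ne'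
  have hdet : (!![v.1 / N, v.2 / N; -v.2, v.1] : Matrix (Fin 2) (Fin 2) ℝ).det = 1 := by
    rw [Matrix.det_fin_two]
    simp only [Matrix.of_apply, Matrix.cons_val', Matrix.cons_val_zero, Matrix.cons_val_one,
      Matrix.cons_val_fin_one]
    field_simp
    rw [hNd]
    ring
  set M0 : SL(2, ℝ) := ⟨_, hdet⟩ with hM0
  have n00 : M0 0 0 = v.1 / N := rfl
  have n01 : M0 0 1 = v.2 / N := rfl
  have n10 : M0 1 0 = -v.2 := rfl
  have n11 : M0 1 1 = v.1 := rfl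
  refine ⟨M0, ?_, ?_⟩
  · rw [(conj_entries M0 k).2.2.1, n10, n11]
    linear_combination -v.2 * h1 + v.1 * h2
  · rw [(conj_entries M0 k).1, n00, n01, n10, n11]
    have e : (v.1 / N * k 0 0 + v.2 / N * k 1 0) * v.1 -
        (v.1 / N * k 0 1 + v.2 / N * k 1 1) * -v.2 =
        (v.1 * (k 0 0 * v.1 + k 0 1 * v.2) + v.2 * (k 1 0 * v.1 + k 1 1 * v.2)) / N := by
      field_simp
      ring
    rw [e, h1, h2, div_eq_iff hN0, hNd]
    ring

theorem nf (k : SL(2, ℝ)) (v : ℝ × ℝ) (μ : ℝ) (hv : v ≠ 0)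
    (h1 : k 0 0 * v.1 + k 0 1 * v.2 = μ * v.1) (h2 : k 1 0 * v.1 + k 1 1 * v.2 = μ * v.2) :
    ∃ M : SL(2, ℝ), (M * k * M⁻¹) 1 0 = 0 ∧ (M * k * M⁻¹) 0 0 = μ ∧
      (μ ^ 2 ≠ 1 → (M * k * M⁻¹) 0 1 = 0) := by
  obtain ⟨M, e1, e2⟩ := nf0 k v μ hv h1 h2
  by_cases hμ : μ ^ 2 = 1
  · exact ⟨M, e1, e2, fun h => absurd hμ h⟩
  · set k0 := M * k * M⁻¹ with hk0
    have hd := det_eq k0
    rw [e1, e2, mul_zero, sub_zero] at hd
    have hne : μ - k0 1 1 ≠ 0 := by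
      intro h0
      have : k0 1 1 = μ := by linarith
      rw [this] at hd
      exact hμ (by nlinarith)
    set x := k0 0 1 / (μ - k0 1 1) with hx
    have hdet : (!![1, x; 0, 1] : Matrix (Fin 2) (Fin 2) ℝ).det = 1 := by
      rw [Matrix.det_fin_two]
      simp
    set Nx : SL(2, ℝ) := ⟨_, hdet⟩ with hNx
    have n00 : Nx 0 0 = 1 := rfl
    have n01 : Nx 0 1 = x := rfl
    have n10 : Nx 1 0 = 0 := rfl
    have n11 : Nx 1 1 = 1 := rfl
    have hc : (Nx * M) * k * (Nx * M)⁻¹ = Nx * k0 * Nx⁻¹ := by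
      rw [hk0]
      group
    obtain ⟨c1, c2, c3, c4⟩ := conj_entries Nx k0
    refine ⟨Nx * M, ?_, ?_, ?_⟩
    · rw [hc, c3, n10, n11, e1]
      ring
    · rw [hc, c1, n00, n01, n10, n11, e1, e2]
      ring
    · intro _
      rw [hc, c2, n00, n01, e1, e2]
      have : x * (μ - k0 1 1) = k0 0 1 := by
        rw [hx]
        field_simp
      linear_combination -this

/-! ### Model actions -/

theorem act_tr (k : SL(2, ℝ)) (h10 : k 1 0 = 0) (hμ : k 0 0 ^ 2 = 1) (z : ℍ) :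
    (k • z).re = z.re + k 0 0 * k 0 1 ∧ (k • z).im = z.im := by
  obtain ⟨e1, e2⟩ := smul_eqs k z
  have hd := det_eq k
  rw [h10] at e1 e2 hd
  have h11 : k 1 1 = k 0 0 := by
    have : k 0 0 * (k 1 1 - k 0 0) = 0 := by nlinarith
    rcases mul_eq_zero.1 this with h | h
    · rw [h] at hμ
      norm_num at hμ
    · linarith
  rw [h11] at e1 e2
  constructor
  · linear_combination k 0 0 * e1 + ((z.re) - (k • z).re) * hμ
  · linear_combination k 0 0 * e2 + ((z.im) - (k • z).im) * hμ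

theorem act_sc (k : SL(2, ℝ)) (h10 : k 1 0 = 0) (h01 : k 0 1 = 0) (z : ℍ) :
    (k • z).re = k 0 0 ^ 2 * z.re ∧ (k • z).im = k 0 0 ^ 2 * z.im := by
  obtain ⟨e1, e2⟩ := smul_eqs k z
  have hd := det_eq k
  rw [h10] at e1 e2 hd
  rw [h01] at e1 hd
  constructor
  · linear_combination k 0 0 * e1 - (k • z).re * hd
  · linear_combination k 0 0 * e2 - (k • z).im * hd

/-! ### Model curves -/

theorem cont_mk (x y : ℝ → ℝ) (hx : Continuous x) (hy : Continuous y) (h : ∀ t, 0 < y t) :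
    Continuous (fun t => (⟨⟨x t, y t⟩, h t⟩ : ℍ)) := by
  rw [UpperHalfPlane.isOpenEmbedding_coe.isInducing.continuous_iff]
  have : (((↑) : ℍ → ℂ) ∘ fun t => (⟨⟨x t, y t⟩, h t⟩ : ℍ)) =
      fun t => (x t : ℂ) + (y t : ℂ) * Complex.I := by
    funext t
    apply Complex.ext <;> simp
  rw [this]
  fun_prop

/-- The horizontal curve. -/
noncomputable def trc (β h : ℝ) (hh : 0 < h) : C(ℝ, ℍ) :=
  ⟨fun t => ⟨⟨β * t, h⟩, hh⟩, cont_mk (fun t => β * t) (fun _ => h) (by fun_prop) (by fun_prop)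
    fun _ => hh⟩

theorem trc_re (β h : ℝ) (hh : 0 < h) (t : ℝ) : (trc β h hh t).re = β * t := rfl

theorem trc_im (β h : ℝ) (hh : 0 < h) (t : ℝ) : (trc β h hh t).im = h := rfl

theorem trc_per (k : SL(2, ℝ)) (h10 : k 1 0 = 0) (hμ : k 0 0 ^ 2 = 1) (h : ℝ) (hh : 0 < h)
    (t : ℝ) : trc (k 0 0 * k 0 1) h hh (t + 1) = k • trc (k 0 0 * k 0 1) h hh t := by
  obtain ⟨e1, e2⟩ := act_tr k h10 hμ (trc (k 0 0 * k 0 1) h hh t)
  apply UpperHalfPlane.ext_re_im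
  · rw [e1, trc_re, trc_re]
    ring
  · rw [e2, trc_im, trc_im]

/-- The ray. -/
noncomputable def scc (ν x : ℝ) (hν : 0 < ν) : C(ℝ, ℍ) :=
  ⟨fun t => ⟨⟨ν ^ t * x, ν ^ t⟩, Real.rpow_pos_of_pos hν t⟩,
    cont_mk (fun t => ν ^ t * x) (fun t => ν ^ t)
      ((Real.continuous_const_rpow hν.ne').mul continuous_const)
      (Real.continuous_const_rpow hν.ne') fun t => Real.rpow_pos_of_pos hν t⟩

theorem scc_re (ν x : ℝ) (hν : 0 < ν) (t : ℝ) : (scc ν x hν t).re = ν ^ t * x := rfl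

theorem scc_im (ν x : ℝ) (hν : 0 < ν) (t : ℝ) : (scc ν x hν t).im = ν ^ t := rfl

theorem ne_zero_of_upper (k : SL(2, ℝ)) (h10 : k 1 0 = 0) : k 0 0 ≠ 0 := by
  intro h
  have := det_eq k
  rw [h10, h] at this
  norm_num at this

theorem scc_per (k : SL(2, ℝ)) (h10 : k 1 0 = 0) (h01 : k 0 1 = 0) (x : ℝ)
    (hν : 0 < k 0 0 ^ 2) (t : ℝ) :
    scc (k 0 0 ^ 2) x hν (t + 1) = k • scc (k 0 0 ^ 2) x hν t := by
  obtain ⟨e1, e2⟩ := act_sc k h10 h01 (scc (k 0 0 ^ 2) x hν t)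
  apply UpperHalfPlane.ext_re_im
  · rw [e1, scc_re, scc_re, Real.rpow_add hν, Real.rpow_one]
    ring
  · rw [e2, scc_im, scc_im, Real.rpow_add hν, Real.rpow_one]
    ring

/-- A constant curve for the identity. -/
theorem per_const (g : SL(2, ℝ)) (hg : mh g = 1) (z : ℍ) (t : ℝ) :
    (ContinuousMap.const ℝ z : C(ℝ, ℍ)) (t + 1) = g • (ContinuousMap.const ℝ z : C(ℝ, ℍ)) t := by
  have := congrArg (fun F : ℍ ≃ₜ ℍ => F z) hg
  exact this.symm

/-- Case A. -/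
theorem caseA (Γ : Subgroup SL(2, ℝ)) (hΓ : Good Γ) (h2 : GoalG2) (g d : SL(2, ℝ)) (hd : d ∈ Γ)
    (hg : mh g = 1) : Dj g d := by
  by_cases hd1 : mh d = 1
  · refine ⟨ContinuousMap.const ℝ ⟨Complex.I, by simp⟩, ContinuousMap.const ℝ ⟨2 * Complex.I, by simp⟩,
      per_const g hg _, per_const d hd1 _, ?_⟩
    intro s t e
    have := congrArg UpperHalfPlane.im e
    change (2 * Complex.I).im = Complex.I.im at this
    simp at this
  · obtain ⟨_, v, hv, μ, -, k1, k2⟩ := (h2 Γ hΓ).1 d hd hd1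
    obtain ⟨M, m1, m2, m3⟩ := nf d v μ hv k1 k2
    apply Dj_conj M
    have hg' : mh (M * g * M⁻¹) = 1 := by
      rw [map_mul, map_mul, hg, mul_one, map_inv, mul_inv_cancel]
    by_cases hμ : μ ^ 2 = 1
    · refine ⟨ContinuousMap.const ℝ ⟨2 * Complex.I, by simp⟩,
        trc ((M * d * M⁻¹) 0 0 * (M * d * M⁻¹) 0 1) 1 one_pos, per_const _ hg' _,
        trc_per _ m1 (by rw [m2, hμ]) 1 one_pos, ?_⟩
      intro s t e
      have := congrArg UpperHalfPlane.im e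
      rw [trc_im] at this
      change 1 = (2 * Complex.I).im at this
      simp at this
    · have hpos : 0 < (M * d * M⁻¹) 0 0 ^ 2 := by
        have := ne_zero_of_upper _ m1
        positivity
      refine ⟨ContinuousMap.const ℝ ⟨1 + Complex.I, by simp⟩,
        scc ((M * d * M⁻¹) 0 0 ^ 2) 0 hpos, per_const _ hg' _, scc_per _ m1 (m3 hμ) 0 hpos, ?_⟩
      intro s t e
      have := congrArg UpperHalfPlane.re e
      rw [scc_re] at this
      change _ = (1 + Complex.I).re at this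
      simp at this

/-- Imaginary part. -/
theorem im_smul (Q : SL(2, ℝ)) (z : ℍ) :
    (Q • z).im * ((Q 1 0 * z.re + Q 1 1) ^ 2 + (Q 1 0 * z.im) ^ 2) = z.im := by
  obtain ⟨e1, e2⟩ := smul_eqs Q z
  have hd := det_eq Q
  linear_combination (Q 1 0 * z.re + Q 1 1) * e2 - (Q 1 0 * z.im) * e1 + z.im * hd

/-- A periodic curve of bounded height of an element which does not fix infinity. -/
theorem low (d : SL(2, ℝ)) (v : ℝ × ℝ) (μ : ℝ) (hv : v ≠ 0)
    (k1 : d 0 0 * v.1 + d 0 1 * v.2 = μ * v.1) (k2 : d 1 0 * v.1 + d 1 1 * v.2 = μ * v.2)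
    (h10 : d 1 0 ≠ 0) :
    ∃ (σ : C(ℝ, ℍ)) (h : ℝ), 0 < h ∧ (∀ t, σ (t + 1) = d • σ t) ∧ ∀ t, (σ t).im < h := by
  obtain ⟨M, m1, m2, m3⟩ := nf d v μ hv k1 k2
  set D := M * d * M⁻¹ with hD
  have hdD : d = M⁻¹ * D * (M⁻¹)⁻¹ := by
    rw [hD]
    group
  set Q := M⁻¹ with hQ
  obtain ⟨c1, c2, c3, c4⟩ := conj_entries Q D
  rw [← hdD] at c1 c2 c3 c4
  have hc : Q 1 0 ≠ 0 := by
    intro h0
    rw [h0, m1] at c3
    exact h10 (by rw [c3]; ring)
  by_cases hμ : μ ^ 2 = 1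
  · refine ⟨mv M⁻¹ (trc (D 0 0 * D 0 1) 1 one_pos), 1 / Q 1 0 ^ 2 + 1, by positivity,
      mv_per M d _ (trc_per D m1 (by rw [m2, hμ]) 1 one_pos), ?_⟩
    intro t
    rw [mv_apply]
    have e := im_smul Q (trc (D 0 0 * D 0 1) 1 one_pos t)
    rw [trc_im] at e
    change (Q • trc (D 0 0 * D 0 1) 1 one_pos t).im < _
    set Y := (Q • trc (D 0 0 * D 0 1) 1 one_pos t).im with hY
    have hYp : 0 < Y := UpperHalfPlane.im_pos _
    have hcc : 0 < Q 1 0 ^ 2 := by positivity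
    have h1 : Y * Q 1 0 ^ 2 ≤ 1 := by
      have := mul_nonneg hYp.le (sq_nonneg (Q 1 0 * (trc (D 0 0 * D 0 1) 1 one_pos t).re + Q 1 1))
      nlinarith
    have h2 : Y ≤ 1 / Q 1 0 ^ 2 := by
      rw [le_div_iff₀ hcc]
      exact h1
    linarith
  · have hpos : 0 < D 0 0 ^ 2 := by
      have := ne_zero_of_upper D m1
      positivity
    have he : Q 1 1 ≠ 0 := by
      intro h0
      rw [h0, m3 hμ] at c3
      exact h10 (by rw [c3]; ring)
    refine ⟨mv M⁻¹ (scc (D 0 0 ^ 2) 0 hpos), 1 / |Q 1 0 * Q 1 1| + 1, ?_,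
      mv_per M d _ (scc_per D m1 (m3 hμ) 0 hpos), ?_⟩
    · have : 0 < |Q 1 0 * Q 1 1| := abs_pos.2 (mul_ne_zero hc he)
      positivity
    intro t
    rw [mv_apply]
    have e := im_smul Q (scc (D 0 0 ^ 2) 0 hpos t)
    rw [scc_im, scc_re, mul_zero, mul_zero, zero_add] at e
    change (Q • scc (D 0 0 ^ 2) 0 hpos t).im < _
    set Y := (Q • scc (D 0 0 ^ 2) 0 hpos t).im with hY
    have hYp : 0 < Y := UpperHalfPlane.im_pos _
    set y := (D 0 0 ^ 2) ^ t with hy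
    have hyp : 0 < y := Real.rpow_pos_of_pos hpos t
    have hce : 0 < |Q 1 0 * Q 1 1| := abs_pos.2 (mul_ne_zero hc he)
    have h3 : |Q 1 0 * Q 1 1| * y ≤ Q 1 1 ^ 2 + (Q 1 0 * y) ^ 2 := by
      have e1 : |Q 1 0 * Q 1 1| * y = |Q 1 0 * y * Q 1 1| := by
        rw [show Q 1 0 * y * Q 1 1 = Q 1 0 * Q 1 1 * y by ring, abs_mul (Q 1 0 * Q 1 1) y,
          abs_of_pos hyp]
      rw [e1, abs_le]
      constructor <;> nlinarith [sq_nonneg (Q 1 0 * y + Q 1 1), sq_nonneg (Q 1 0 * y - Q 1 1),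
        sq_nonneg (Q 1 1), sq_nonneg (Q 1 0 * y)]
    have h1 : Y * |Q 1 0 * Q 1 1| ≤ 1 := by
      have h4 : Y * (|Q 1 0 * Q 1 1| * y) ≤ y := by
        calc Y * (|Q 1 0 * Q 1 1| * y) ≤ Y * (Q 1 1 ^ 2 + (Q 1 0 * y) ^ 2) :=
              mul_le_mul_of_nonneg_left h3 hYp.le
          _ = y := e
      have h5 : (Y * |Q 1 0 * Q 1 1|) * y ≤ 1 * y := by
        rw [one_mul, mul_assoc]
        exact h4
      exact le_of_mul_le_mul_right h5 hyp
    have h2 : Y ≤ 1 / |Q 1 0 * Q 1 1| := by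
      rw [le_div_iff₀ hce]
      exact h1
    linarith

/-- If `M d M⁻¹` fixes infinity then `M⁻¹ ∞` is an eigenvector of `d`. -/
theorem eig (M d : SL(2, ℝ)) (h : (M * d * M⁻¹) 1 0 = 0) :
    d 0 0 * M 1 1 + d 0 1 * (-M 1 0) = (M * d * M⁻¹) 0 0 * M 1 1 ∧
    d 1 0 * M 1 1 + d 1 1 * (-M 1 0) = (M * d * M⁻¹) 0 0 * (-M 1 0) := by
  obtain ⟨c1, c2, c3, c4⟩ := conj_entries M d
  rw [h] at c3
  have hd := det_eq M
  rw [c1]
  constructor
  · linear_combination (-(d 0 0 * M 1 1) + d 0 1 * M 1 0) * hd + M 0 1 * c3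
  · linear_combination (-(d 1 0 * M 1 1) + d 1 1 * M 1 0) * hd - M 0 0 * c3

theorem sq_of_tr (k : SL(2, ℝ)) (h10 : k 1 0 = 0) (h1 : 2 ≤ |k 0 0 + k 1 1|)
    (h2 : ¬ 2 < |k 0 0 + k 1 1|) : k 0 0 ^ 2 = 1 := by
  have h3 : |k 0 0 + k 1 1| = 2 := le_antisymm (not_lt.1 h2) h1
  have h4 : (k 0 0 + k 1 1) ^ 2 = 4 := by
    rw [← sq_abs, h3]
    norm_num
  have hd := det_eq k
  rw [h10, mul_zero, sub_zero] at hd
  have h5 : (k 0 0 - k 1 1) ^ 2 = 0 := by linear_combination h4 - 4 * hd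
  have h6 : k 0 0 = k 1 1 := by
    have := pow_eq_zero_iff (two_ne_zero) |>.1 h5
    linarith
  rw [← h6] at hd
  rw [sq]
  exact hd

theorem sq_ne_of_tr (k : SL(2, ℝ)) (h10 : k 1 0 = 0) (h1 : 2 < |k 0 0 + k 1 1|) :
    k 0 0 ^ 2 ≠ 1 := by
  intro h
  have hd := det_eq k
  rw [h10, mul_zero, sub_zero] at hd
  have h5 : k 0 0 * (k 0 0 - k 1 1) = 0 := by linear_combination h - hd
  have hne := ne_zero_of_upper k h10
  have h6 : k 1 1 = k 0 0 := by
    rcases mul_eq_zero.1 h5 with h7 | h7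
    · exact absurd h7 hne
    · linarith
  have h8 : (k 0 0 + k 1 1) ^ 2 = 4 := by rw [h6]; linear_combination 4 * h
  have h9 : |k 0 0 + k 1 1| = 2 := by
    have : |k 0 0 + k 1 1| ^ 2 = 2 ^ 2 := by rw [sq_abs, h8]; norm_num
    exact (pow_left_inj₀ (abs_nonneg _) (by norm_num) two_ne_zero).1 this
  rw [h9] at h1
  exact lt_irrefl _ h1

/-- Case B: the first element is parabolic. -/
theorem caseB (Γ : Subgroup SL(2, ℝ)) (hΓ : Good Γ) (h1 : GoalG1) (h2 : GoalG2)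
    (g d : SL(2, ℝ)) (hg : g ∈ Γ) (hd : d ∈ Γ) (hg1 : mh g ≠ 1) (hd1 : mh d ≠ 1)
    (ht : ¬ 2 < |g 0 0 + g 1 1|) : Dj g d := by
  obtain ⟨htg, v, hv, μ, -, k1, k2⟩ := (h2 Γ hΓ).1 g hg hg1
  obtain ⟨M, m1, m2, m3⟩ := nf g v μ hv k1 k2
  have htr := conj_tr M g
  have hsq : (M * g * M⁻¹) 0 0 ^ 2 = 1 := by
    apply sq_of_tr _ m1
    · rw [htr]
      exact htg
    · rw [htr]
      exact ht
  apply Dj_conj M
  set g' := M * g * M⁻¹ with hg'
  set d' := M * d * M⁻¹ with hd'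
  by_cases h10 : d' 1 0 = 0
  · -- both fix infinity
    have hcom : mh g * mh d = mh d * mh g := by
      refine h1 Γ hΓ g hg d hd (M 1 1, -M 1 0) (g' 0 0) (d' 0 0) ?_ (eig M g m1).1 (eig M g m1).2
        (eig M d h10).1 (eig M d h10).2
      intro h0
      have e1 : M 1 1 = 0 := congrArg Prod.fst h0
      have e2 : -M 1 0 = 0 := congrArg Prod.snd h0
      have hdM := det_eq M
      have e3 : M 1 0 = 0 := by linarith
      rw [e1, e3] at hdM
      norm_num at hdM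
    have hcom' : mh (g' * d') = mh (d' * g') := by
      have e1 : g' * d' = M * (g * d) * M⁻¹ := by rw [hg', hd']; group
      have e2 : d' * g' = M * (d * g) * M⁻¹ := by rw [hg', hd']; group
      rw [e1, e2, map_mul, map_mul, map_mul, map_mul, map_mul, map_mul, hcom]
    have hz : ∀ z : ℍ, (g' • (d' • z)) = d' • (g' • z) := by
      intro z
      have := congrArg (fun F : ℍ ≃ₜ ℍ => F z) hcom'
      change (g' * d') • z = (d' * g') • z at this
      rwa [mul_smul g' d' z, mul_smul d' g' z] at this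
    have hβ : g' 0 0 * g' 0 1 ≠ 0 := by
      intro h0
      apply hg1
      have hid : mh g' = 1 := by
        ext1 z
        change g' • z = z
        obtain ⟨e1, e2⟩ := act_tr g' m1 hsq z
        apply UpperHalfPlane.ext_re_im
        · rw [e1, h0, add_zero]
        · exact e2
      have e3 : g = M⁻¹ * g' * M := by rw [hg']; group
      rw [e3, map_mul, map_mul, hid, mul_one, ← map_mul, inv_mul_cancel, map_one]
    have hdsq : d' 0 0 ^ 2 = 1 := by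
      -- real parts
      have hre : ∀ z : ℍ, (d' • z).re = d' 0 0 ^ 2 * z.re + d' 0 0 * d' 0 1 := by
        intro z
        obtain ⟨e1, e2⟩ := smul_eqs d' z
        have hdd := det_eq d'
        rw [h10] at e1 e2 hdd
        linear_combination d' 0 0 * e1 - (d' • z).re * hdd
      have e := congrArg UpperHalfPlane.re (hz UpperHalfPlane.I)
      rw [(act_tr g' m1 hsq _).1, hre, hre, (act_tr g' m1 hsq _).1] at e
      have e4 : (g' 0 0 * g' 0 1) * (d' 0 0 ^ 2 - 1) = 0 := by linear_combination -e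
      rcases mul_eq_zero.1 e4 with h5 | h5
      · exact absurd h5 hβ
      · linarith
    refine ⟨trc (g' 0 0 * g' 0 1) 1 one_pos, trc (d' 0 0 * d' 0 1) 2 two_pos,
      trc_per g' m1 hsq 1 one_pos, trc_per d' h10 hdsq 2 two_pos, ?_⟩
    intro s t e
    have := congrArg UpperHalfPlane.im e
    rw [trc_im, trc_im] at this
    norm_num at this
  · -- `d'` does not fix infinity
    obtain ⟨_, w, hw, ν, -, l1, l2⟩ := (h2 Γ hΓ).1 d hd hd1
    have hdet := det_eq M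
    obtain ⟨c1, c2, c3, c4⟩ := conj_entries M d
    have hlow := low d' (M 0 0 * w.1 + M 0 1 * w.2, M 1 0 * w.1 + M 1 1 * w.2) ν ?_ ?_ ?_ h10
    · obtain ⟨σ, h, hh, s1, s2⟩ := hlow
      refine ⟨trc (g' 0 0 * g' 0 1) h hh, σ, trc_per g' m1 hsq h hh, s1, ?_⟩
      intro s t e
      have := congrArg UpperHalfPlane.im e
      rw [trc_im] at this
      exact absurd this (s2 s).ne
    · intro h0
      have e1 : M 0 0 * w.1 + M 0 1 * w.2 = 0 := congrArg Prod.fst h0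
      have e2 : M 1 0 * w.1 + M 1 1 * w.2 = 0 := congrArg Prod.snd h0
      apply hw
      apply Prod.ext
      · change w.1 = 0
        linear_combination -w.1 * hdet + M 1 1 * e1 - M 0 1 * e2
      · change w.2 = 0
        linear_combination -w.2 * hdet - M 1 0 * e1 + M 0 0 * e2
    · change d' 0 0 * (M 0 0 * w.1 + M 0 1 * w.2) + d' 0 1 * (M 1 0 * w.1 + M 1 1 * w.2) =
        ν * (M 0 0 * w.1 + M 0 1 * w.2)
      rw [hd', c1, c2]
      linear_combination ((M 0 0 * d 0 0 + M 0 1 * d 1 0) * w.1 +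
        (M 0 0 * d 0 1 + M 0 1 * d 1 1) * w.2) * hdet + M 0 0 * l1 + M 0 1 * l2
    · change d' 1 0 * (M 0 0 * w.1 + M 0 1 * w.2) + d' 1 1 * (M 1 0 * w.1 + M 1 1 * w.2) =
        ν * (M 1 0 * w.1 + M 1 1 * w.2)
      rw [hd', c3, c4]
      linear_combination ((M 1 0 * d 0 0 + M 1 1 * d 1 0) * w.1 +
        (M 1 0 * d 0 1 + M 1 1 * d 1 1) * w.2) * hdet + M 1 0 * l1 + M 1 1 * l2

/-- Case D: commuting hyperbolic elements. -/
theorem caseD (Γ : Subgroup SL(2, ℝ)) (hΓ : Good Γ) (h2 : GoalG2)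
    (g d : SL(2, ℝ)) (hg : g ∈ Γ) (hg1 : mh g ≠ 1)
    (htg : 2 < |g 0 0 + g 1 1|) (htd : 2 < |d 0 0 + d 1 1|)
    (hcom : mh g * mh d = mh d * mh g) : Dj g d := by
  obtain ⟨_, v, hv, μ, -, k1, k2⟩ := (h2 Γ hΓ).1 g hg hg1
  obtain ⟨M, m1, m2, m3⟩ := nf g v μ hv k1 k2
  have htr := conj_tr M g
  have htrd := conj_tr M d
  have hsq : (M * g * M⁻¹) 0 0 ^ 2 ≠ 1 := by
    apply sq_ne_of_tr _ m1
    rw [htr]
    exact htg
  have m3' := m3 (by rw [← m2]; exact hsq)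
  apply Dj_conj M
  set g' := M * g * M⁻¹ with hg'
  set d' := M * d * M⁻¹ with hd'
  have hcom' : mh (g' * d') = mh (d' * g') := by
    have e1 : g' * d' = M * (g * d) * M⁻¹ := by rw [hg', hd']; group
    have e2 : d' * g' = M * (d * g) * M⁻¹ := by rw [hg', hd']; group
    rw [e1, e2, map_mul, map_mul, map_mul, map_mul, map_mul, map_mul, hcom]
  have hdg := det_eq g'
  rw [m1, mul_zero, sub_zero] at hdg
  have p00 : (g' * d') 0 0 = g' 0 0 * d' 0 0 + g' 0 1 * d' 1 0 := by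
    simp [Matrix.mul_apply, Fin.sum_univ_two]
  have p01 : (g' * d') 0 1 = g' 0 0 * d' 0 1 + g' 0 1 * d' 1 1 := by
    simp [Matrix.mul_apply, Fin.sum_univ_two]
  have p10 : (g' * d') 1 0 = g' 1 0 * d' 0 0 + g' 1 1 * d' 1 0 := by
    simp [Matrix.mul_apply, Fin.sum_univ_two]
  have p11 : (g' * d') 1 1 = g' 1 0 * d' 0 1 + g' 1 1 * d' 1 1 := by
    simp [Matrix.mul_apply, Fin.sum_univ_two]
  have q00 : (d' * g') 0 0 = d' 0 0 * g' 0 0 + d' 0 1 * g' 1 0 := by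
    simp [Matrix.mul_apply, Fin.sum_univ_two]
  have q01 : (d' * g') 0 1 = d' 0 0 * g' 0 1 + d' 0 1 * g' 1 1 := by
    simp [Matrix.mul_apply, Fin.sum_univ_two]
  have q10 : (d' * g') 1 0 = d' 1 0 * g' 0 0 + d' 1 1 * g' 1 0 := by
    simp [Matrix.mul_apply, Fin.sum_univ_two]
  have q11 : (d' * g') 1 1 = d' 1 0 * g' 0 1 + d' 1 1 * g' 1 1 := by
    simp [Matrix.mul_apply, Fin.sum_univ_two]
  rw [m3'] at p00 p01 q01 q11
  rw [m1] at p10 p11 q00 q10
  have hne : g' 0 0 ≠ 0 := ne_zero_of_upper g' m1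
  have hne1 : g' 1 1 ≠ 0 := by
    intro h0
    rw [h0] at hdg
    norm_num at hdg
  have hdiff : g' 0 0 - g' 1 1 ≠ 0 := by
    intro h0
    apply hsq
    have : g' 1 1 = g' 0 0 := by linarith
    rw [this] at hdg
    rw [sq]
    exact hdg
  have key : d' 0 1 = 0 ∧ d' 1 0 = 0 := by
    rcases (mh_eq_iff _ _).1 hcom' with h | h
    · have e1 : (g' * d') 0 1 = (d' * g') 0 1 := by rw [h]
      have e2 : (g' * d') 1 0 = (d' * g') 1 0 := by rw [h]
      rw [p01, q01] at e1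
      rw [p10, q10] at e2
      constructor
      · have : (g' 0 0 - g' 1 1) * d' 0 1 = 0 := by linear_combination e1
        exact (mul_eq_zero.1 this).resolve_left hdiff
      · have : (g' 0 0 - g' 1 1) * d' 1 0 = 0 := by linear_combination -e2
        exact (mul_eq_zero.1 this).resolve_left hdiff
    · exfalso
      have e1 : (g' * d') 0 0 = -(d' * g') 0 0 := by rw [h]; rfl
      have e2 : (g' * d') 1 1 = -(d' * g') 1 1 := by rw [h]; rfl
      rw [p00, q00] at e1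
      rw [p11, q11] at e2
      have f1 : d' 0 0 = 0 := by
        have : g' 0 0 * d' 0 0 = 0 := by linear_combination e1 / 2
        exact (mul_eq_zero.1 this).resolve_left hne
      have f2 : d' 1 1 = 0 := by
        have : g' 1 1 * d' 1 1 = 0 := by linear_combination e2 / 2
        exact (mul_eq_zero.1 this).resolve_left hne1
      rw [f1, f2] at htrd
      rw [← htrd] at htd
      norm_num at htd
  have hpg : 0 < g' 0 0 ^ 2 := by positivity
  have hpd : 0 < d' 0 0 ^ 2 := by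
    have := ne_zero_of_upper d' key.2
    positivity
  refine ⟨scc (g' 0 0 ^ 2) 0 hpg, scc (d' 0 0 ^ 2) 1 hpd, scc_per g' m1 m3' 0 hpg,
    scc_per d' key.2 key.1 1 hpd, ?_⟩
  intro s t e
  have := congrArg UpperHalfPlane.re e
  rw [scc_re, scc_re, mul_zero, mul_one] at this
  exact absurd this (Real.rpow_pos_of_pos hpd s).ne'

/-- GOAL CR3. -/
theorem goalCR3 (h1 : GoalG1) (h2 : GoalG2) : GoalCR3 := by
  intro Γ hΓ g hg d hd hc
  have hg1 : mh g ≠ 1 := fun h => (caseA Γ hΓ h2 g d hd h).not_Cr hc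
  have hd1 : mh d ≠ 1 := fun h => (caseA Γ hΓ h2 d g hg h).symm.not_Cr hc
  have htg : 2 < |g 0 0 + g 1 1| := by
    by_contra h
    exact (caseB Γ hΓ h1 h2 g d hg hd hg1 hd1 h).not_Cr hc
  have htd : 2 < |d 0 0 + d 1 1| := by
    by_contra h
    exact (caseB Γ hΓ h1 h2 d g hd hg hd1 hg1 h).symm.not_Cr hc
  refine ⟨htg, htd, ?_⟩
  intro hcom
  exact (caseD Γ hΓ h2 g d hg hg1 htg htd hcom).not_Cr hc

end Pool.Agent.Helper77.LN
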