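import Pool.Agent.Helper64.LN.GoalsB

/-! Packet LN-G2: centralizers. -/

set_option autoImplicit false

open Topology Filter Set Metric UpperHalfPlane
open scoped MatrixGroups
open Pool.Agent.Helper64.LN

namespace Pool.Agent.Helper77.LN.G2

theorem det_eq (k : SL(2, ℝ)) : k 0 0 * k 1 1 - k 0 1 * k 1 0 = 1 := by
  have := k.det_coe
  rwa [Matrix.det_fin_two] at this

/-- The determinant of two vectors. -/
def D (v w : ℝ × ℝ) : ℝ := v.1 * w.2 - v.2 * w.1

/-- The linear action. -/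
def ac (k : SL(2, ℝ)) (v : ℝ × ℝ) : ℝ × ℝ := (k 0 0 * v.1 + k 0 1 * v.2, k 1 0 * v.1 + k 1 1 * v.2)

/-- Eigenvectors. -/
def IsE (k : SL(2, ℝ)) (v : ℝ × ℝ) (μ : ℝ) : Prop :=
  k 0 0 * v.1 + k 0 1 * v.2 = μ * v.1 ∧ k 1 0 * v.1 + k 1 1 * v.2 = μ * v.2

theorem ac_mul (g h : SL(2, ℝ)) (v : ℝ × ℝ) : ac (g * h) v = ac g (ac h v) := by
  have p00 : (g * h) 0 0 = g 0 0 * h 0 0 + g 0 1 * h 1 0 := by
    simp [Matrix.mul_apply, Fin.sum_univ_two]
  have p01 : (g * h) 0 1 = g 0 0 * h 0 1 + g 0 1 * h 1 1 := by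
    simp [Matrix.mul_apply, Fin.sum_univ_two]
  have p10 : (g * h) 1 0 = g 1 0 * h 0 0 + g 1 1 * h 1 0 := by
    simp [Matrix.mul_apply, Fin.sum_univ_two]
  have p11 : (g * h) 1 1 = g 1 0 * h 0 1 + g 1 1 * h 1 1 := by
    simp [Matrix.mul_apply, Fin.sum_univ_two]
  unfold ac
  rw [p00, p01, p10, p11]
  apply Prod.ext
  · simp only
    ring
  · simp only
    ring

theorem ac_one (v : ℝ × ℝ) : ac 1 v = v := by
  unfold ac
  simp

theorem ac_neg (g : SL(2, ℝ)) (v : ℝ × ℝ) : ac (-g) v = -ac g v := by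
  have e : ∀ i j, ((-g : SL(2, ℝ)) : Matrix (Fin 2) (Fin 2) ℝ) i j = -(g i j) := fun _ _ => rfl
  unfold ac
  rw [e, e, e, e]
  apply Prod.ext
  · simp only [Prod.fst_neg]
    ring
  · simp only [Prod.snd_neg]
    ring

theorem ac_smul (g : SL(2, ℝ)) (α : ℝ) (v : ℝ × ℝ) : ac g (α • v) = α • ac g v := by
  unfold ac
  apply Prod.ext
  · simp only [Prod.smul_fst, Prod.smul_snd, smul_eq_mul]
    ring
  · simp only [Prod.smul_fst, Prod.smul_snd, smul_eq_mul]
    ring

theorem isE_iff (k : SL(2, ℝ)) (v : ℝ × ℝ) (μ : ℝ) : IsE k v μ ↔ ac k v = μ • v := by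
  unfold IsE ac
  rw [Prod.ext_iff]
  simp only [Prod.smul_fst, Prod.smul_snd, smul_eq_mul]

theorem D_ac (k : SL(2, ℝ)) (v w : ℝ × ℝ) : D (ac k v) (ac k w) = D v w := by
  have := det_eq k
  unfold D ac
  simp only
  linear_combination (v.1 * w.2 - v.2 * w.1) * this

theorem tr_D (k : SL(2, ℝ)) (v w : ℝ × ℝ) :
    D (ac k v) w + D v (ac k w) = (k 0 0 + k 1 1) * D v w := by
  unfold D ac
  simp only
  ring

theorem D_smul (α β : ℝ) (v w : ℝ × ℝ) : D (α • v) (β • w) = α * β * D v w := by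
  unfold D
  simp only [Prod.smul_fst, Prod.smul_snd, smul_eq_mul]
  ring

theorem ex_smul (v w : ℝ × ℝ) (hv : v ≠ 0) (h : D v w = 0) : ∃ α : ℝ, w = α • v := by
  unfold D at h
  rcases v with ⟨a, b⟩
  rcases w with ⟨c, e⟩
  simp only at h
  by_cases ha : a = 0
  · have hb : b ≠ 0 := by
      intro hb
      exact hv (by rw [ha, hb]; rfl)
    refine ⟨e / b, ?_⟩
    rw [ha, zero_mul, zero_sub, neg_eq_zero] at h
    have hc : c = 0 := (mul_eq_zero.1 h).resolve_left hb
    apply Prod.ext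
    · simp only [Prod.smul_mk, smul_eq_mul, ha, hc, mul_zero]
    · simp only [Prod.smul_mk, smul_eq_mul]
      field_simp
  · refine ⟨c / a, ?_⟩
    apply Prod.ext
    · simp only [Prod.smul_mk, smul_eq_mul]
      field_simp
    · simp only [Prod.smul_mk, smul_eq_mul]
      field_simp
      linarith

theorem scalar (k : SL(2, ℝ)) (v w : ℝ × ℝ) (μ : ℝ) (hD : D v w ≠ 0) (h1 : IsE k v μ)
    (h2 : IsE k w μ) : mh k = 1 := by
  obtain ⟨a1, a2⟩ := h1
  obtain ⟨b1, b2⟩ := h2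
  unfold D at hD
  have e00 : k 0 0 = μ := by
    have : (k 0 0 - μ) * (v.1 * w.2 - v.2 * w.1) = 0 := by
      linear_combination w.2 * a1 - v.2 * b1
    have := (mul_eq_zero.1 this).resolve_right hD
    linarith
  have e01 : k 0 1 = 0 := by
    have : k 0 1 * (v.1 * w.2 - v.2 * w.1) = 0 := by
      linear_combination v.1 * b1 - w.1 * a1
    exact (mul_eq_zero.1 this).resolve_right hD
  have e10 : k 1 0 = 0 := by
    have : k 1 0 * (v.1 * w.2 - v.2 * w.1) = 0 := by
      linear_combination w.2 * a2 - v.2 * b2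
    exact (mul_eq_zero.1 this).resolve_right hD
  have e11 : k 1 1 = μ := by
    have : (k 1 1 - μ) * (v.1 * w.2 - v.2 * w.1) = 0 := by
      linear_combination v.1 * b2 - w.1 * a2
    have := (mul_eq_zero.1 this).resolve_right hD
    linarith
  have hd := det_eq k
  rw [e00, e01, e10, e11, mul_zero, sub_zero] at hd
  rw [← map_one mh, mh_eq_iff]
  rcases mul_self_eq_one_iff.1 hd with h | h
  · left
    ext i j
    fin_cases i <;> fin_cases j <;> simp [e00, e01, e10, e11, h]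
  · right
    ext i j
    fin_cases i <;> fin_cases j <;> simp [e00, e01, e10, e11, h]

theorem prod_eig (k : SL(2, ℝ)) (v w : ℝ × ℝ) (μ ν : ℝ) (hD : D v w ≠ 0) (h1 : IsE k v μ)
    (h2 : IsE k w ν) : μ * ν = 1 := by
  rw [isE_iff] at h1 h2
  have e := D_ac k v w
  rw [h1, h2, D_smul] at e
  have : (μ * ν - 1) * D v w = 0 := by linear_combination e
  have := (mul_eq_zero.1 this).resolve_right hD
  linarith

theorem ac_ne (k : SL(2, ℝ)) (v : ℝ × ℝ) (hv : v ≠ 0) : ac k v ≠ 0 := by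
  intro h
  apply hv
  have := ac_mul k⁻¹ k v
  rw [inv_mul_cancel, ac_one, h] at this
  rw [this]
  unfold ac
  simp

theorem eig_ne (k : SL(2, ℝ)) (v : ℝ × ℝ) (hv : v ≠ 0) (μ : ℝ) (h : IsE k v μ) : μ ≠ 0 := by
  intro h0
  rw [isE_iff, h0, zero_smul] at h
  exact ac_ne k v hv h

/-- Commuting elements preserve eigenlines. -/
theorem lemE (a b : SL(2, ℝ)) (hb : mh b ≠ 1) (hab : mh a * mh b = mh b * mh a) (v : ℝ × ℝ)
    (μ : ℝ) (hv : v ≠ 0) (h : IsE b v μ) : ∃ α, IsE a v α := by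
  have hD : D v (ac a v) = 0 := by
    by_contra hne
    rw [← map_mul, ← map_mul, mh_eq_iff] at hab
    have hμ := eig_ne b v hv μ h
    have h' := (isE_iff b v μ).1 h
    rcases hab with h1 | h1
    · have e : ac b (ac a v) = μ • ac a v := by
        rw [← ac_mul, ← h1, ac_mul, h', ac_smul]
      exact hb (scalar b v (ac a v) μ hne h ((isE_iff _ _ _).2 e))
    · have e : ac b (ac a v) = (-μ) • ac a v := by
        have h2 : b * a = -(a * b) := by rw [h1, neg_neg]
        rw [← ac_mul, h2, ac_neg, ac_mul, h', ac_smul]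
        apply Prod.ext
        · simp only [Prod.fst_neg, Prod.smul_fst, smul_eq_mul]
          ring
        · simp only [Prod.snd_neg, Prod.smul_snd, smul_eq_mul]
          ring
      have e2 := prod_eig b v (ac a v) μ (-μ) hne h ((isE_iff _ _ _).2 e)
      nlinarith [sq_nonneg μ]
  obtain ⟨α, hα⟩ := ex_smul v (ac a v) hv hD
  exact ⟨α, (isE_iff _ _ _).2 hα⟩

/-- Elliptic elements have fixed points. -/
theorem ell (g : SL(2, ℝ)) (h : |g 0 0 + g 1 1| < 2) : ∃ z : ℍ, g • z = z := by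
  have hd := det_eq g
  have hsq : (g 0 0 + g 1 1) ^ 2 < 4 := by
    have := sq_lt_sq' (by linarith [(abs_lt.1 h).1] : -2 < g 0 0 + g 1 1) (abs_lt.1 h).2
    linarith
  have hc : g 1 0 ≠ 0 := by
    intro h0
    rw [h0, mul_zero, sub_zero] at hd
    nlinarith [sq_nonneg (g 0 0 - g 1 1)]
  set s := Real.sqrt (4 - (g 0 0 + g 1 1) ^ 2) with hs
  have hspos : 0 < s := Real.sqrt_pos.2 (by linarith)
  have hss : s ^ 2 = 4 - (g 0 0 + g 1 1) ^ 2 := Real.sq_sqrt (by linarith)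
  have hac : 0 < |g 1 0| := abs_pos.2 hc
  set y := s / (2 * |g 1 0|) with hy
  set x := (g 0 0 - g 1 1) / (2 * g 1 0) with hx
  have hypos : 0 < y := by positivity
  have hy2 : 4 * (g 1 0) ^ 2 * y ^ 2 = s ^ 2 := by
    rw [hy, div_pow, mul_pow, sq_abs]
    field_simp
    ring
  have hx2 : 2 * g 1 0 * x = g 0 0 - g 1 1 := by
    rw [hx]
    field_simp
  refine ⟨⟨⟨x, y⟩, hypos⟩, ?_⟩
  set z : ℍ := ⟨⟨x, y⟩, hypos⟩ with hz
  have hre : z.re = x := rfl
  have him : z.im = y := rfl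
  obtain ⟨e1, e2⟩ := smul_eqs g z
  have hpos := denom_pos g z
  rw [hre, him] at e1 e2 hpos
  -- the point itself satisfies the equations
  have f1 : x * (g 1 0 * x + g 1 1) - y * (g 1 0 * y) = g 0 0 * x + g 0 1 := by
    have : 4 * g 1 0 * (x * (g 1 0 * x + g 1 1) - y * (g 1 0 * y) - (g 0 0 * x + g 0 1)) = 0 := by
      linear_combination (2 * g 1 0 * x + (g 1 1 - g 0 0)) * hx2 - hy2 - hss + 4 * hd
    rcases mul_eq_zero.1 this with h1 | h1
    · exact absurd h1 (mul_ne_zero (by norm_num) hc)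
    · linarith
  have f2 : x * (g 1 0 * y) + y * (g 1 0 * x + g 1 1) = g 0 0 * y := by
    linear_combination y * hx2
  apply UpperHalfPlane.ext_re_im
  · rw [hre]
    have : ((g • z).re - x) * ((g 1 0 * x + g 1 1) ^ 2 + (g 1 0 * y) ^ 2) = 0 := by
      linear_combination (g 1 0 * x + g 1 1) * (e1 - f1) + (g 1 0 * y) * (e2 - f2)
    have := (mul_eq_zero.1 this).resolve_right hpos.ne'
    linarith
  · rw [him]
    have : ((g • z).im - y) * ((g 1 0 * x + g 1 1) ^ 2 + (g 1 0 * y) ^ 2) = 0 := by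
      linear_combination (g 1 0 * x + g 1 1) * (e2 - f2) - (g 1 0 * y) * (e1 - f1)
    have := (mul_eq_zero.1 this).resolve_right hpos.ne'
    linarith

/-- Attracting eigenvectors. -/
theorem exAtt (g : SL(2, ℝ)) (h : 2 ≤ |g 0 0 + g 1 1|) : ∃ v, Att g v := by
  have hd := det_eq g
  obtain ⟨μ, hμ1, hμ⟩ : ∃ μ : ℝ, 1 ≤ |μ| ∧ μ ^ 2 - (g 0 0 + g 1 1) * μ + 1 = 0 := by
    set t := g 0 0 + g 1 1 with ht
    have hsq : 4 ≤ t ^ 2 := by
      rw [← sq_abs]
      nlinarith
    have hs := Real.sq_sqrt (show 0 ≤ t ^ 2 - 4 by linarith)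
    have hs0 := Real.sqrt_nonneg (t ^ 2 - 4)
    rcases le_abs.1 h with h1 | h1
    · refine ⟨(t + Real.sqrt (t ^ 2 - 4)) / 2, ?_, ?_⟩
      · rw [le_abs]
        left
        linarith
      · linear_combination hs / 4
    · refine ⟨(t - Real.sqrt (t ^ 2 - 4)) / 2, ?_, ?_⟩
      · rw [le_abs]
        right
        linarith
      · linear_combination hs / 4
  by_cases h1 : g 0 1 = 0 ∧ μ = g 0 0
  · by_cases h2 : g 1 0 = 0 ∧ μ = g 1 1
    · refine ⟨(1, 0), by simp, μ, hμ1, ?_, ?_⟩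
      · simp only [mul_one, mul_zero, add_zero]
        exact h1.2.symm
      · simp only [mul_one, mul_zero, add_zero]
        exact h2.1
    · refine ⟨(μ - g 1 1, g 1 0), ?_, μ, hμ1, ?_, ?_⟩
      · intro h0
        apply h2
        have e1 : μ - g 1 1 = 0 := congrArg Prod.fst h0
        have e2 : g 1 0 = 0 := congrArg Prod.snd h0
        exact ⟨e2, by linarith⟩
      · simp only
        rw [h1.1, h1.2]
        ring
      · simp only
        ring
  · refine ⟨(g 0 1, μ - g 0 0), ?_, μ, hμ1, ?_, ?_⟩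
    · intro h0
      apply h1
      have e1 : g 0 1 = 0 := congrArg Prod.fst h0
      have e2 : μ - g 0 0 = 0 := congrArg Prod.snd h0
      exact ⟨e1, by linarith⟩
    · simp only
      ring
    · simp only
      linear_combination -hμ - hd

theorem part1 (Γ : Subgroup SL(2, ℝ)) (hΓ : Good Γ) (g : SL(2, ℝ)) (hg : g ∈ Γ)
    (hg1 : mh g ≠ 1) : 2 ≤ |g 0 0 + g 1 1| ∧ ∃ v, Att g v := by
  have h : 2 ≤ |g 0 0 + g 1 1| := by
    by_contra hc
    push Not at hc
    obtain ⟨z, hz⟩ := ell g hc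
    exact hg1 (hΓ.free g hg z hz)
  exact ⟨h, exAtt g h⟩

/-- GOAL G2. -/
theorem goalG2 (h1 : GoalG1) : GoalG2 := by
  intro Γ hΓ
  refine ⟨part1 Γ hΓ, ?_, ?_⟩
  · rintro _ ⟨a, ha, rfl⟩ _ ⟨b, hb, rfl⟩ _ ⟨c, hc, rfl⟩ hb1 hab hbc
    obtain ⟨_, v, hv, μ, -, k1, k2⟩ := part1 Γ hΓ b hb hb1
    obtain ⟨α, hα⟩ := lemE a b hb1 hab v μ hv ⟨k1, k2⟩
    obtain ⟨γ, hγ⟩ := lemE c b hb1 hbc.symm v μ hv ⟨k1, k2⟩
    exact h1 Γ hΓ a ha c hc v α γ hv hα.1 hα.2 hγ.1 hγ.2
  · rintro _ ⟨g, hg, rfl⟩ _ ⟨a, ha, rfl⟩ ha1 hcom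
    by_cases hg1 : mh g = 1
    · rw [hg1, one_mul, mul_one]
    obtain ⟨_, v, hv, μ, -, k1, k2⟩ := part1 Γ hΓ a ha ha1
    have hcom' : mh (g * a * g⁻¹) * mh a = mh a * mh (g * a * g⁻¹) := by
      rw [map_mul, map_mul, map_inv]
      exact hcom
    -- `g⁻¹` maps eigenvectors of `a` to eigenvectors of `a`
    have key : ∀ u ν, u ≠ 0 → IsE a u ν → ∃ ν', IsE a (ac g⁻¹ u) ν' := by
      intro u ν hu hE
      obtain ⟨ν', hν'⟩ := lemE (g * a * g⁻¹) a ha1 hcom' u ν hu hE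
      refine ⟨ν', ?_⟩
      rw [isE_iff] at hν' ⊢
      have e : a * g⁻¹ = g⁻¹ * (g * a * g⁻¹) := by group
      rw [← ac_mul, e, ac_mul, hν', ac_smul]
    -- if `g⁻¹` fixes an eigenline we are done
    have fin : ∀ u ν, u ≠ 0 → IsE a u ν → D u (ac g⁻¹ u) = 0 → mh g * mh a = mh a * mh g := by
      intro u ν hu hE hD
      obtain ⟨β, hβ⟩ := ex_smul u _ hu hD
      have hβ0 : β ≠ 0 := by
        intro h0
        rw [h0, zero_smul] at hβ
        exact ac_ne g⁻¹ u hu hβ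
      have hgu : IsE g u β⁻¹ := by
        rw [isE_iff]
        have e1 : ac g (ac g⁻¹ u) = u := by rw [← ac_mul, mul_inv_cancel, ac_one]
        rw [hβ, ac_smul] at e1
        have e2 : ac g u = β⁻¹ • (β • ac g u) := by
          rw [smul_smul, inv_mul_cancel₀ hβ0, one_smul]
        rw [e2, e1]
      exact h1 Γ hΓ g hg a ha u β⁻¹ ν hu hgu.1 hgu.2 hE.1 hE.2
    have hEv : IsE a v μ := ⟨k1, k2⟩
    set w := ac g⁻¹ v with hw
    by_cases hvw : D v w = 0
    · exact fin v μ hv hEv hvw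
    obtain ⟨α, hα⟩ := key v μ hv hEv
    rw [← hw] at hα
    have hw0 : w ≠ 0 := ac_ne g⁻¹ v hv
    obtain ⟨α', hα'⟩ := key w α hw0 hα
    set w2 := ac g⁻¹ w with hw2
    by_cases hww : D w w2 = 0
    · exact fin w α hw0 hα hww
    by_cases hvw2 : D v w2 = 0
    · exfalso
      have htr : g 0 0 + g 1 1 = 0 := by
        have e := tr_D g⁻¹ v w
        rw [← hw, ← hw2, hvw2] at e
        have e0 : D w w = 0 := by unfold D; ring
        rw [e0, add_zero] at e
        have e3 : (g⁻¹ 0 0 + g⁻¹ 1 1) = 0 :=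
          (mul_eq_zero.1 e.symm).resolve_right hvw
        simp only [Matrix.SpecialLinearGroup.coe_inv, Matrix.adjugate_fin_two, Matrix.of_apply,
          Matrix.cons_val', Matrix.cons_val_zero, Matrix.cons_val_one,
          Matrix.cons_val_fin_one] at e3
        linarith
      have := (part1 Γ hΓ g hg hg1).1
      rw [htr, abs_zero] at this
      norm_num at this
    · exfalso
      have e1 := prod_eig a v w μ α hvw hEv hα
      have e2 := prod_eig a v w2 μ α' hvw2 hEv hα'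
      have e3 := prod_eig a w w2 α α' hww hα hα'
      have hμ0 := eig_ne a v hv μ hEv
      have e4 : α = α' := by
        have : μ * (α - α') = 0 := by linear_combination e1 - e2
        have := (mul_eq_zero.1 this).resolve_left hμ0
        linarith
      have hα0 := eig_ne a w hw0 α hα
      have e5 : μ = α := by
        have : α * (μ - α) = 0 := by
          rw [← e4] at e3
          linear_combination e1 - e3
        have := (mul_eq_zero.1 this).resolve_left hα0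
        linarith
      rw [e5] at hEv
      exact ha1 (scalar a v w α hvw hEv hα)

end Pool.Agent.Helper77.LN.G2
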